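import Pool.Agent.MP7badbe.CoLower
import Pool.Agent.MP7badbe.CoUpper

/-!
# `1 - π(F_{k-j})` has order `log k / k^j` for every fixed `j ≥ 2`
-/

open Finset

namespace Pool.Agent.Results.MP_7badbe_co.FixedCoI

open Pool.Agent.MP7badbe

/-- The order of magnitude for fixed `j = k - i ≥ 2`. -/
theorem fixed_j : ∀ j : ℕ, 2 ≤ j → ∃ c C : ℝ, 0 < c ∧ 0 < C ∧ ∀ k : ℕ, j < k →
    Filter.Tendsto (fun n : ℕ => (ex n k (k - j) : ℝ) / (n.choose k : ℝ)) Filter.atTop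
      (nhds (turanDensity k (k - j))) ∧
    c * Real.log k / (k : ℝ) ^ j ≤ 1 - turanDensity k (k - j) ∧
    1 - turanDensity k (k - j) ≤ C * Real.log k / (k : ℝ) ^ j := by
  intro j hj
  obtain ⟨C, hC, hC2⟩ := co_upper (j - 1)
  rw [show j - 1 + 1 = j by omega] at hC2
  refine ⟨1 / 4 ^ (j + 1), C, by positivity, hC, fun k hk => ⟨ratio_tendsto k (k - j), ?_, hC2 k hk⟩⟩
  refine le_trans (le_of_eq ?_) (co_lower j k hj hk)
  rw [div_mul_eq_mul_div, one_mul, div_div]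

/-- For every fixed `j ≥ 2` there are constants `0 < c`, `0 < C` with
`c log k / k^j ≤ 1 - π(F_{k-j}) ≤ C log k / k^j` for all `k > j`; the limit defining `π(F_{k-j})`
exists. -/
theorem result : ∀ j : ℕ, 2 ≤ j → ∃ c C : ℝ, 0 < c ∧ 0 < C ∧ ∀ k : ℕ, j < k →
    Filter.Tendsto (fun n : ℕ => (ex n k (k - j) : ℝ) / (n.choose k : ℝ)) Filter.atTop
      (nhds (turanDensity k (k - j))) ∧
    c * Real.log k / (k : ℝ) ^ j ≤ 1 - turanDensity k (k - j) ∧
    1 - turanDensity k (k - j) ≤ C * Real.log k / (k : ℝ) ^ j :=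
  fixed_j

end Pool.Agent.Results.MP_7badbe_co.FixedCoI
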