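import Pool.Agent.Results.MP_7badbe_co.FixedI
import Pool.Agent.Results.MP_7badbe_co.FixedCoI

/-!
# The order of magnitude of `1 - π(F_i)` for fixed `i` and for fixed `k - i ≥ 2`
-/

namespace Pool.Agent.Results.MP_7badbe_co.AllOrders

open Pool.Agent.MP7badbe

/-- As `k` grows, `1 - π(F_i)` has order `k^{-(i-1)}` for every fixed `i ≥ 3`, and
`1 - π(F_{k-j})` has order `log k / k^j` for every fixed `j ≥ 2`. -/
theorem result :
    (∀ (k i : ℕ), Filter.Tendsto (fun n : ℕ => (ex n k i : ℝ) / (n.choose k : ℝ)) Filter.atTop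
      (nhds (turanDensity k i))) ∧
    (∀ i : ℕ, 3 ≤ i → ∃ c C : ℝ, 0 < c ∧ 0 < C ∧ ∀ k : ℕ, i < k →
      c / (k : ℝ) ^ (i - 1) ≤ 1 - turanDensity k i ∧
      1 - turanDensity k i ≤ C / (k : ℝ) ^ (i - 1)) ∧
    (∀ j : ℕ, 2 ≤ j → ∃ c C : ℝ, 0 < c ∧ 0 < C ∧ ∀ k : ℕ, j < k →
      c * Real.log k / (k : ℝ) ^ j ≤ 1 - turanDensity k (k - j) ∧
      1 - turanDensity k (k - j) ≤ C * Real.log k / (k : ℝ) ^ j) := by
  refine ⟨fun k i => ratio_tendsto k i, fun i hi => ?_, fun j hj => ?_⟩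
  · obtain ⟨c, C, hc, hC, h⟩ := FixedI.result i (by omega)
    exact ⟨c, C, hc, hC, fun k hk => (h k hk.le).2⟩
  · obtain ⟨c, C, hc, hC, h⟩ := FixedCoI.result j hj
    exact ⟨c, C, hc, hC, fun k hk => (h k hk).2⟩

end Pool.Agent.Results.MP_7badbe_co.AllOrders
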