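import Pool.Agent.MP7badbe.Basic

/-!
# `1 - π(F_i)` has order `k^{-(i-1)}` for every fixed `i`

Lower bound: each copy of `F_i` has a missing edge, and `F_i` has `C(k-1,i-1) + i` edges.

Upper bound, all families live on a finite set `W` of integers and `δ` is relative size.
* `Sys.step`: if on every set there is a family of `h`-sets of relative size `δ` with a member in
  every `(h+1)`-set, then there is such a family of `(h+e+1)`-sets of relative size
  `1/m + (1-1/m)^(e+1) δ`, for every `m`.  Label the points by `ZMod m` at random and fix `s`.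
  Let `D` be the top `e+1` points of an `(h+e+2)`-set `X` and `c` the sum of the labels of `D` minus
  `s`.  If some point of `D` has label `c` delete it; otherwise delete a point of the `h+1` lowest
  points of `X` using the given family below `min D`.
* Hence (`basic`) families of `k`-sets of relative size `16/(k+1)` with a member in every `(k+1)`-set.
* `Sys.sum`, `Sys.prod`: cutting a set at its element of given rank one obtains, for fixed `i` and
  `q`, families of relative size `O(k^{-q})` such that from each `(k+q)`-set one can delete `q`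
  points outside any given set `S` of at most `i` points and land in the family.  For `q = i - 1`
  and `X = S ∪ T` the resulting member is an edge of the copy of `F_i` on `(S, T)`.
-/

open Finset

namespace Pool.Agent.Results.MP_7badbe_co.FixedI

open Pool.Agent.MP7badbe

/-- elements of `W` below `y` -/
def lo (W : Finset ℕ) (y : ℕ) : Finset ℕ := W.filter (· < y)
/-- elements of `W` above `y` -/
def hi (W : Finset ℕ) (y : ℕ) : Finset ℕ := W.filter (y < ·)
/-- put together a lower set, a separator and an upper set -/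
def join (y : ℕ) (B C : Finset ℕ) : Finset ℕ := insert y (B ∪ C)

theorem mem_lo {W : Finset ℕ} {y a : ℕ} : a ∈ lo W y ↔ a ∈ W ∧ a < y := by simp [lo]
theorem mem_hi {W : Finset ℕ} {y a : ℕ} : a ∈ hi W y ↔ a ∈ W ∧ y < a := by simp [hi]

theorem lo_mono {X W : Finset ℕ} (h : X ⊆ W) (y : ℕ) : lo X y ⊆ lo W y := by
  intro a ha; rw [mem_lo] at *; exact ⟨h ha.1, ha.2⟩
theorem hi_mono {X W : Finset ℕ} (h : X ⊆ W) (y : ℕ) : hi X y ⊆ hi W y := by
  intro a ha; rw [mem_hi] at *; exact ⟨h ha.1, ha.2⟩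

theorem card_split {X : Finset ℕ} {y : ℕ} (hy : y ∈ X) :
    X.card = (lo X y).card + (hi X y).card + 1 := by
  have h1 : X = insert y (lo X y ∪ hi X y) := by
    ext a
    simp only [mem_insert, mem_union, mem_lo, mem_hi]
    constructor
    · intro ha
      rcases lt_trichotomy a y with h | h | h
      · exact Or.inr (Or.inl ⟨ha, h⟩)
      · exact Or.inl h
      · exact Or.inr (Or.inr ⟨ha, h⟩)
    · rintro (rfl | h | h)
      · exact hy
      · exact h.1
      · exact h.1
  have h2 : Disjoint (lo X y) (hi X y) := by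
    rw [Finset.disjoint_left]; intro a ha hb
    rw [mem_lo] at ha; rw [mem_hi] at hb; omega
  have h3 : y ∉ lo X y ∪ hi X y := by simp [mem_lo, mem_hi]
  conv_lhs => rw [h1]
  rw [Finset.card_insert_of_notMem h3, Finset.card_union_of_disjoint h2]

theorem card_join {y : ℕ} {B C : Finset ℕ} (hB : ∀ b ∈ B, b < y) (hC : ∀ c ∈ C, y < c) :
    (join y B C).card = B.card + C.card + 1 := by
  have h2 : Disjoint B C := by
    rw [Finset.disjoint_left]; intro a ha hb
    have := hB a ha; have := hC a hb; omega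
  have h3 : y ∉ B ∪ C := by
    rw [mem_union]; rintro (h | h)
    · exact absurd (hB y h) (lt_irrefl _)
    · exact absurd (hC y h) (lt_irrefl _)
  rw [join, Finset.card_insert_of_notMem h3, Finset.card_union_of_disjoint h2]

theorem lo_join {y : ℕ} {B C : Finset ℕ} (hB : ∀ b ∈ B, b < y) (hC : ∀ c ∈ C, y < c) :
    lo (join y B C) y = B := by
  ext a
  simp only [mem_lo, join, mem_insert, mem_union]
  constructor
  · rintro ⟨rfl | h | h, h2⟩
    · exact absurd h2 (lt_irrefl _)
    · exact h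
    · have := hC a h; omega
  · intro h; exact ⟨Or.inr (Or.inl h), hB a h⟩

theorem hi_join {y : ℕ} {B C : Finset ℕ} (hB : ∀ b ∈ B, b < y) (hC : ∀ c ∈ C, y < c) :
    hi (join y B C) y = C := by
  ext a
  simp only [mem_hi, join, mem_insert, mem_union]
  constructor
  · rintro ⟨rfl | h | h, h2⟩
    · exact absurd h2 (lt_irrefl _)
    · have := hB a h; omega
    · exact h
  · intro h; exact ⟨Or.inr (Or.inr h), hC a h⟩

theorem join_subset {W : Finset ℕ} {y : ℕ} {B C : Finset ℕ} (hy : y ∈ W) (hB : B ⊆ W) (hC : C ⊆ W) :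
    join y B C ⊆ W := by
  intro a
  simp only [join, mem_insert, mem_union]
  rintro (rfl | h | h)
  · exact hy
  · exact hB h
  · exact hC h

/-- every rank below the size is attained -/
theorem exists_rank (X : Finset ℕ) : ∀ r < X.card, ∃ y ∈ X, (lo X y).card = r := by
  induction X using Finset.induction_on_max with
  | empty => intro r hr; simp at hr
  | insert a s ha ih =>
    intro r hr
    have has : a ∉ s := fun h => lt_irrefl _ (ha a h)
    rw [Finset.card_insert_of_notMem has] at hr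
    rcases Nat.lt_succ_iff_lt_or_eq.mp hr with h | h
    · obtain ⟨y, hy, hc⟩ := ih r h
      refine ⟨y, mem_insert_of_mem hy, ?_⟩
      have : lo (insert a s) y = lo s y := by
        ext b
        simp only [mem_lo, mem_insert]
        constructor
        · rintro ⟨rfl | h1, h2⟩
          · have := ha y hy; omega
          · exact ⟨h1, h2⟩
        · rintro ⟨h1, h2⟩; exact ⟨Or.inr h1, h2⟩
      rw [this]; exact hc
    · refine ⟨a, mem_insert_self _ _, ?_⟩
      have : lo (insert a s) a = s := by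
        ext b
        simp only [mem_lo, mem_insert]
        constructor
        · rintro ⟨rfl | h1, h2⟩
          · exact absurd h2 (lt_irrefl _)
          · exact h1
        · intro h1; exact ⟨Or.inr h1, ha b h1⟩
      rw [this]; exact h.symm

/-- counting triples (separator, lower set, upper set) -/
theorem tri_count (W : Finset ℕ) (h e : ℕ) :
    ∑ y ∈ W, (lo W y).card.choose h * (hi W y).card.choose e ≤ W.card.choose (h + e + 1) := by
  classical
  have h1 : ∑ y ∈ W, (lo W y).card.choose h * (hi W y).card.choose e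
      = (W.sigma (fun y => (lo W y).powersetCard h ×ˢ (hi W y).powersetCard e)).card := by
    rw [Finset.card_sigma]
    refine Finset.sum_congr rfl fun y _ => ?_
    rw [Finset.card_product, Finset.card_powersetCard, Finset.card_powersetCard]
  rw [h1, ← Finset.card_powersetCard]
  have key : ∀ y B C, y ∈ W → B ∈ (lo W y).powersetCard h → C ∈ (hi W y).powersetCard e →
      (∀ b ∈ B, b < y) ∧ (∀ c ∈ C, y < c) ∧ B ⊆ W ∧ C ⊆ W ∧ B.card = h ∧ C.card = e := by
    intro y B C hy hB hC
    rw [mem_powersetCard] at hB hC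
    refine ⟨fun b hb => (mem_lo.mp (hB.1 hb)).2, fun c hc => (mem_hi.mp (hC.1 hc)).2,
      fun b hb => (mem_lo.mp (hB.1 hb)).1, fun c hc => (mem_hi.mp (hC.1 hc)).1, hB.2, hC.2⟩
  refine Finset.card_le_card_of_injOn (fun t => join t.1 t.2.1 t.2.2) ?_ ?_
  · rintro ⟨y, B, C⟩ ht
    simp only [coe_sigma, Set.mem_sigma_iff, mem_coe, mem_product] at ht
    obtain ⟨k1, k2, k3, k4, k5, k6⟩ := key y B C ht.1 ht.2.1 ht.2.2
    simp only [mem_coe, mem_powersetCard]
    refine ⟨join_subset ht.1 k3 k4, ?_⟩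
    rw [card_join k1 k2, k5, k6]
  · rintro ⟨y, B, C⟩ ht ⟨y', B', C'⟩ ht' heq
    simp only [coe_sigma, Set.mem_sigma_iff, mem_coe, mem_product] at ht ht'
    obtain ⟨k1, k2, k3, k4, k5, k6⟩ := key y B C ht.1 ht.2.1 ht.2.2
    obtain ⟨l1, l2, l3, l4, l5, l6⟩ := key y' B' C' ht'.1 ht'.2.1 ht'.2.2
    simp only at heq
    have aux : ∀ (y y' : ℕ) (B C B' C' : Finset ℕ), (∀ b ∈ B, b < y) → (∀ c ∈ C, y < c) →
        (∀ b ∈ B', b < y') → (∀ c ∈ C', y' < c) → B.card = h → B'.card = h →
        join y B C = join y' B' C' → ¬ y < y' := by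
      intro y y' B C B' C' k1 k2 l1 l2 k5 l5 heq hlt
      have hsub : insert y B ⊆ B' := by
        intro a ha
        rw [← lo_join l1 l2, mem_lo, ← heq]
        rw [mem_insert] at ha
        rcases ha with rfl | ha
        · exact ⟨by simp [join], hlt⟩
        · exact ⟨by simp [join, ha], lt_trans (k1 a ha) hlt⟩
      have hc := Finset.card_le_card hsub
      have hyB : y ∉ B := fun hh => lt_irrefl _ (k1 y hh)
      rw [Finset.card_insert_of_notMem hyB] at hc
      omega
    have e1 : y = y' := by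
      rcases lt_trichotomy y y' with hh | hh | hh
      · exact absurd hh (aux y y' B C B' C' k1 k2 l1 l2 k5 l5 heq)
      · exact hh
      · exact absurd hh (aux y' y B' C' B C l1 l2 k1 k2 l5 k5 heq.symm)
    subst e1
    have e2 : B = B' := by rw [← lo_join k1 k2, heq, lo_join l1 l2]
    have e3 : C = C' := by rw [← hi_join k1 k2, heq, hi_join l1 l2]
    subst e2; subst e3; rfl

/-- `Sys q i k δ`: on every finite set `W` there is a family of `k`-sets of relative size at most
`δ` such that for every `(k+q)`-set `X ⊆ W` and every `S ⊆ X` with at most `i` elements some member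
`A` of the family satisfies `S ⊆ A ⊆ X`. -/
def Sys (q i k : ℕ) (δ : ℝ) : Prop :=
  ∀ W : Finset ℕ, ∃ 𝒢 : Finset (Finset ℕ), (∀ A ∈ 𝒢, A ⊆ W ∧ A.card = k) ∧
    (∀ X ⊆ W, X.card = k + q → ∀ S ⊆ X, S.card ≤ i → ∃ A ∈ 𝒢, S ⊆ A ∧ A ⊆ X) ∧
    (𝒢.card : ℝ) ≤ δ * (W.card.choose k : ℝ)

theorem Sys.mono {q i k : ℕ} {δ δ' : ℝ} (h : Sys q i k δ) (hd : δ ≤ δ') : Sys q i k δ' := by
  intro W
  obtain ⟨𝒢, h1, h2, h3⟩ := h W
  refine ⟨𝒢, h1, h2, h3.trans ?_⟩
  gcongr

theorem Sys.triv (q i k : ℕ) (hik : i ≤ k) : Sys q i k 1 := by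
  intro W
  refine ⟨W.powersetCard k, ?_, ?_, ?_⟩
  · intro A hA; rw [mem_powersetCard] at hA; exact hA
  · intro X hX hXc S hS hSc
    obtain ⟨A, h1, h2, h3⟩ := Finset.exists_subsuperset_card_eq hS (hSc.trans hik) (by omega : k ≤ X.card)
    exact ⟨A, mem_powersetCard.mpr ⟨h2.trans hX, h3⟩, h1, h2⟩
  · rw [card_powersetCard, one_mul]

/-- families glued from a lower and an upper family -/
theorem glue_card {W : Finset ℕ} {h e : ℕ} {δ₁ δ₂ : ℝ} (h1 : 0 ≤ δ₁) (h2 : 0 ≤ δ₂)
    (𝒜 ℬ : ℕ → Finset (Finset ℕ))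
    (hA : ∀ y ∈ W, ((𝒜 y).card : ℝ) ≤ δ₁ * ((lo W y).card.choose h : ℝ))
    (hB : ∀ y ∈ W, ((ℬ y).card : ℝ) ≤ δ₂ * ((hi W y).card.choose e : ℝ)) :
    ((W.biUnion (fun y => (𝒜 y ×ˢ ℬ y).image (fun p => join y p.1 p.2))).card : ℝ)
      ≤ δ₁ * δ₂ * (W.card.choose (h + e + 1) : ℝ) := by
  have s1 : ((W.biUnion (fun y => (𝒜 y ×ˢ ℬ y).image (fun p => join y p.1 p.2))).card : ℝ)
      ≤ ∑ y ∈ W, ((𝒜 y).card : ℝ) * ((ℬ y).card : ℝ) := by
    have : (W.biUnion (fun y => (𝒜 y ×ˢ ℬ y).image (fun p => join y p.1 p.2))).card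
        ≤ ∑ y ∈ W, (𝒜 y).card * (ℬ y).card := by
      refine Finset.card_biUnion_le.trans (Finset.sum_le_sum fun y _ => ?_)
      refine Finset.card_image_le.trans ?_
      rw [Finset.card_product]
    exact_mod_cast this
  refine s1.trans ?_
  have s2 : ∑ y ∈ W, ((𝒜 y).card : ℝ) * ((ℬ y).card : ℝ)
      ≤ ∑ y ∈ W, δ₁ * δ₂ * (((lo W y).card.choose h * (hi W y).card.choose e : ℕ) : ℝ) := by
    refine Finset.sum_le_sum fun y hy => ?_
    calc ((𝒜 y).card : ℝ) * ((ℬ y).card : ℝ)
        ≤ (δ₁ * ((lo W y).card.choose h : ℝ)) * (δ₂ * ((hi W y).card.choose e : ℝ)) := by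
          gcongr
          · exact hA y hy
          · exact hB y hy
      _ = δ₁ * δ₂ * (((lo W y).card.choose h * (hi W y).card.choose e : ℕ) : ℝ) := by
          push_cast; ring
  refine s2.trans ?_
  rw [← Finset.mul_sum]
  gcongr
  exact_mod_cast tri_count W h e

theorem mem_glue {W : Finset ℕ} {𝒜 ℬ : ℕ → Finset (Finset ℕ)} {y : ℕ} {B C : Finset ℕ}
    (hy : y ∈ W) (hB : B ∈ 𝒜 y) (hC : C ∈ ℬ y) :
    join y B C ∈ W.biUnion (fun y => (𝒜 y ×ˢ ℬ y).image (fun p => join y p.1 p.2)) := by
  rw [mem_biUnion]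
  exact ⟨y, hy, mem_image.mpr ⟨(B, C), mem_product.mpr ⟨hB, hC⟩, rfl⟩⟩

theorem glue_mem {W : Finset ℕ} {𝒜 ℬ : ℕ → Finset (Finset ℕ)} {h e : ℕ}
    (hA : ∀ y ∈ W, ∀ B ∈ 𝒜 y, B ⊆ lo W y ∧ B.card = h)
    (hB : ∀ y ∈ W, ∀ C ∈ ℬ y, C ⊆ hi W y ∧ C.card = e) :
    ∀ A ∈ W.biUnion (fun y => (𝒜 y ×ˢ ℬ y).image (fun p => join y p.1 p.2)),
      A ⊆ W ∧ A.card = h + e + 1 := by
  intro A hA'
  rw [mem_biUnion] at hA'
  obtain ⟨y, hy, hA'⟩ := hA'
  rw [mem_image] at hA'
  obtain ⟨⟨B, C⟩, hBC, rfl⟩ := hA'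
  rw [mem_product] at hBC
  obtain ⟨b1, b2⟩ := hA y hy B hBC.1
  obtain ⟨c1, c2⟩ := hB y hy C hBC.2
  have k1 : ∀ b ∈ B, b < y := fun b hb => (mem_lo.mp (b1 hb)).2
  have k2 : ∀ c ∈ C, y < c := fun c hc => (mem_hi.mp (c1 hc)).2
  refine ⟨join_subset hy (fun b hb => (mem_lo.mp (b1 hb)).1) (fun c hc => (mem_hi.mp (c1 hc)).1), ?_⟩
  show (join y B C).card = _
  rw [card_join k1 k2, b2, c2]

/-- product of systems -/
theorem Sys.prod {q i h e : ℕ} {δ₁ δ₂ : ℝ} (h1 : 0 ≤ δ₁) (h2 : 0 ≤ δ₂)
    (hA : Sys q i h δ₁) (hB : Sys 1 i e δ₂) : Sys (q + 1) i (h + e + 1) (δ₁ * δ₂) := by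
  intro W
  choose 𝒜 a1 a2 a3 using fun y => hA (lo W y)
  choose ℬ b1 b2 b3 using fun y => hB (hi W y)
  refine ⟨W.biUnion (fun y => (𝒜 y ×ˢ ℬ y).image (fun p => join y p.1 p.2)), ?_, ?_, ?_⟩
  · exact glue_mem (fun y _ => a1 y) (fun y _ => b1 y)
  · intro X hX hXc S hS hSc
    obtain ⟨y, hy, hyc⟩ := exists_rank X (h + q) (by omega)
    have hsp := card_split hy
    obtain ⟨B, hB1, hB2, hB3⟩ := a2 y (lo X y) (lo_mono hX y) hyc (lo S y) (lo_mono hS y)
      ((Finset.card_le_card (Finset.filter_subset _ _)).trans hSc)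
    obtain ⟨C, hC1, hC2, hC3⟩ := b2 y (hi X y) (hi_mono hX y) (by omega) (hi S y) (hi_mono hS y)
      ((Finset.card_le_card (Finset.filter_subset _ _)).trans hSc)
    refine ⟨join y B C, mem_glue (hX hy) hB1 hC1, ?_, ?_⟩
    · intro s hs
      simp only [join, mem_insert, mem_union]
      rcases lt_trichotomy s y with hh | hh | hh
      · exact Or.inr (Or.inl (hB2 (mem_lo.mpr ⟨hs, hh⟩)))
      · exact Or.inl hh
      · exact Or.inr (Or.inr (hC2 (mem_hi.mpr ⟨hs, hh⟩)))
    · exact join_subset hy (hB3.trans (Finset.filter_subset _ _)) (hC3.trans (Finset.filter_subset _ _))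
  · exact glue_card h1 h2 𝒜 ℬ (fun y _ => a3 y) (fun y _ => b3 y)

/-- raising the size of the protected set by one -/
theorem Sys.sum {i h e : ℕ} {δ₁ δ₂ : ℝ} (h1 : 0 ≤ δ₁) (h2 : 0 ≤ δ₂)
    (hA : Sys 1 0 h δ₁) (hB : Sys 1 i e δ₂) : Sys 1 (i + 1) (h + e + 1) (δ₁ + δ₂) := by
  intro W
  choose 𝒜 a1 a2 a3 using fun y => hA (lo W y)
  choose ℬ b1 b2 b3 using fun y => hB (hi W y)
  set 𝒢₁ := W.biUnion (fun y => (𝒜 y ×ˢ ((hi W y).powersetCard e)).image (fun p => join y p.1 p.2)) with h𝒢₁
  set 𝒢₂ := W.biUnion (fun y => (((lo W y).powersetCard h) ×ˢ ℬ y).image (fun p => join y p.1 p.2)) with h𝒢₂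
  have g1 : ∀ A ∈ 𝒢₁, A ⊆ W ∧ A.card = h + e + 1 :=
    glue_mem (fun y _ => a1 y) (fun y _ C hC => mem_powersetCard.mp hC)
  have g2 : ∀ A ∈ 𝒢₂, A ⊆ W ∧ A.card = h + e + 1 :=
    glue_mem (fun y _ B hB => mem_powersetCard.mp hB) (fun y _ => b1 y)
  have c1 : (𝒢₁.card : ℝ) ≤ δ₁ * (W.card.choose (h + e + 1) : ℝ) := by
    have := glue_card (W := W) h1 zero_le_one 𝒜 (fun y => (hi W y).powersetCard e)
      (fun y _ => a3 y) (fun y _ => by rw [card_powersetCard, one_mul])
    simpa using this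
  have c2 : (𝒢₂.card : ℝ) ≤ δ₂ * (W.card.choose (h + e + 1) : ℝ) := by
    have := glue_card (W := W) zero_le_one h2 (fun y => (lo W y).powersetCard h) ℬ
      (fun y _ => by rw [card_powersetCard, one_mul]) (fun y _ => b3 y)
    simpa using this
  refine ⟨𝒢₁ ∪ 𝒢₂, ?_, ?_, ?_⟩
  · intro A hA'
    rcases mem_union.mp hA' with h' | h'
    · exact g1 A h'
    · exact g2 A h'
  · intro X hX hXc S hS hSc
    obtain ⟨z, hz, hzc⟩ := exists_rank X h (by omega)
    obtain ⟨y, hy, hyc⟩ := exists_rank X (h + 1) (by omega)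
    have hspz := card_split hz
    have hspy := card_split hy
    by_cases hcase : ∃ s ∈ S, s ≤ z
    · obtain ⟨s0, hs0, hs0z⟩ := hcase
      have hSz : (hi S z).card ≤ i := by
        have : hi S z ⊆ S.erase s0 := by
          intro a ha; rw [mem_hi] at ha; rw [mem_erase]
          refine ⟨?_, ha.1⟩
          rintro rfl; omega
        have := Finset.card_le_card this
        rw [Finset.card_erase_of_mem hs0] at this; omega
      obtain ⟨C, hC1, hC2, hC3⟩ := b2 z (hi X z) (hi_mono hX z) (by omega) (hi S z) (hi_mono hS z) hSz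
      refine ⟨join z (lo X z) C, mem_union_right _ (mem_glue (hX hz)
        (mem_powersetCard.mpr ⟨lo_mono hX z, hzc⟩) hC1), ?_, ?_⟩
      · intro s hs
        simp only [join, mem_insert, mem_union]
        rcases lt_trichotomy s z with hh | hh | hh
        · exact Or.inr (Or.inl (mem_lo.mpr ⟨hS hs, hh⟩))
        · exact Or.inl hh
        · exact Or.inr (Or.inr (hC2 (mem_hi.mpr ⟨hs, hh⟩)))
      · exact join_subset hz (Finset.filter_subset _ _) (hC3.trans (Finset.filter_subset _ _))
    · push Not at hcase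
      obtain ⟨B, hB1, hB2, hB3⟩ := a2 y (lo X y) (lo_mono hX y) (by omega) ∅ (by simp) (by simp)
      refine ⟨join y B (hi X y), mem_union_left _ (mem_glue (hX hy) hB1
        (mem_powersetCard.mpr ⟨hi_mono hX y, by omega⟩)), ?_, ?_⟩
      · intro s hs
        have hsz := hcase s hs
        have hsX := hS hs
        simp only [join, mem_insert, mem_union]
        rcases lt_trichotomy s y with hh | hh | hh
        · exfalso
          have hzy : z < y := lt_trans hsz hh
          have hsub : insert s (insert z (lo X z)) ⊆ lo X y := by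
            intro a ha
            simp only [mem_insert] at ha
            rw [mem_lo]
            rcases ha with rfl | rfl | ha
            · exact ⟨hsX, hh⟩
            · exact ⟨hz, hzy⟩
            · rw [mem_lo] at ha; exact ⟨ha.1, lt_trans ha.2 hzy⟩
          have hc := Finset.card_le_card hsub
          rw [Finset.card_insert_of_notMem (by
            simp only [mem_insert, mem_lo, not_or]
            exact ⟨by omega, fun h => by omega⟩),
            Finset.card_insert_of_notMem (by simp [mem_lo])] at hc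
          omega
        · exact Or.inl hh
        · exact Or.inr (Or.inr (mem_hi.mpr ⟨hsX, hh⟩))
      · exact join_subset hy (hB3.trans (Finset.filter_subset _ _)) (Finset.filter_subset _ _)
  · have : ((𝒢₁ ∪ 𝒢₂).card : ℝ) ≤ 𝒢₁.card + 𝒢₂.card := by
      exact_mod_cast Finset.card_union_le _ _
    calc ((𝒢₁ ∪ 𝒢₂).card : ℝ) ≤ 𝒢₁.card + 𝒢₂.card := this
      _ ≤ δ₁ * (W.card.choose (h + e + 1) : ℝ) + δ₂ * (W.card.choose (h + e + 1) : ℝ) := add_le_add c1 c2
      _ = (δ₁ + δ₂) * (W.card.choose (h + e + 1) : ℝ) := by ring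

theorem restrict_count {α β ι : Type*} [Fintype α] [DecidableEq α] [Fintype β] [DecidableEq β]
    [Fintype ι] [DecidableEq ι] (e : ι → α) (he : Function.Injective e)
    (Q : (ι → β) → Prop) [DecidablePred Q] [DecidablePred fun f : α → β => Q (f ∘ e)] :
    (univ.filter (fun f : α → β => Q (f ∘ e))).card * Fintype.card β ^ Fintype.card ι
      = (univ.filter Q).card * Fintype.card β ^ Fintype.card α := by
  classical
  have h1 : Fintype.card β ^ Fintype.card ι = (univ : Finset (ι → β)).card := by simp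
  have h2 : Fintype.card β ^ Fintype.card α = (univ : Finset (α → β)).card := by simp
  rw [h1, h2, ← Finset.card_product, ← Finset.card_product]
  refine Finset.card_nbij' (fun x => (x.1 ∘ e, Function.extend e x.2 x.1))
    (fun y => (Function.extend e y.1 y.2, y.2 ∘ e)) ?_ ?_ ?_ ?_
  · rintro ⟨f, h⟩ hx
    simpa using hx
  · rintro ⟨g, f⟩ hx
    simp only [coe_product, coe_filter, mem_univ, true_and, coe_univ, Set.mem_prod,
      Set.mem_ofPred_eq, Set.mem_univ, and_true] at hx ⊢
    have : Function.extend e g f ∘ e = g := by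
      funext i; simp [he.extend_apply]
    rw [this]; exact hx
  · rintro ⟨f, h⟩ _
    simp only [Prod.mk.injEq]
    refine ⟨?_, ?_⟩
    · funext a
      by_cases ha : ∃ i, e i = a
      · obtain ⟨i, rfl⟩ := ha
        simp [he.extend_apply]
      · simp [Function.extend_apply' _ _ _ ha]
    · funext i; simp [he.extend_apply]
  · rintro ⟨g, f⟩ _
    simp only [Prod.mk.injEq]
    refine ⟨?_, ?_⟩
    · funext i; simp [he.extend_apply]
    · funext a
      by_cases ha : ∃ i, e i = a
      · obtain ⟨i, rfl⟩ := ha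
        simp [he.extend_apply]
      · simp [Function.extend_apply' _ _ _ ha]

/-- extend a labelling of `W` by zero -/
def ex0 {W : Finset ℕ} {m : ℕ} (l : W → ZMod m) (v : ℕ) : ZMod m :=
  if h : v ∈ W then l ⟨v, h⟩ else 0

/-- the set `D` has no element whose label is the sum of the labels of `D` minus `s` -/
def Noc {W : Finset ℕ} {m : ℕ} (D : Finset ℕ) (p : (W → ZMod m) × ZMod m) : Prop :=
  ∀ v ∈ D, ex0 p.1 v ≠ (∑ u ∈ D, ex0 p.1 u) - p.2

open Classical in
theorem noc_count {W : Finset ℕ} (m : ℕ) [NeZero m] (D : Finset ℕ) (hD : D ⊆ W) :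
    (univ.filter (fun p : (W → ZMod m) × ZMod m => Noc D p)).card * m ^ D.card
      = (m - 1) ^ D.card * m ^ (W.card + 1) := by
  have h1 : (univ.filter (fun p : (W → ZMod m) × ZMod m => Noc D p)).card
      = ∑ c : ZMod m, (univ.filter (fun l : W → ZMod m => ∀ v ∈ D, ex0 l v ≠ c)).card := by
    rw [Finset.card_filter, Fintype.sum_prod_type]
    simp_rw [Finset.card_filter]
    rw [Finset.sum_comm]
    rw [Finset.sum_comm]
    conv_rhs => rw [Finset.sum_comm]
    refine Finset.sum_congr rfl fun l _ => ?_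
    rw [← (Equiv.subLeft (∑ u ∈ D, ex0 l u)).sum_comp]
    refine Finset.sum_congr rfl fun s _ => ?_
    simp only [Noc, Equiv.subLeft_apply, sub_sub_cancel]
  have h2 : ∀ c : ZMod m, (univ.filter (fun l : W → ZMod m => ∀ v ∈ D, ex0 l v ≠ c)).card * m ^ D.card
      = (m - 1) ^ D.card * m ^ W.card := by
    intro c
    have hr := restrict_count (α := W) (β := ZMod m) (ι := D) (fun x => ⟨x.1, hD x.2⟩)
      (fun x y hxy => Subtype.ext (by simpa using hxy)) (fun g => ∀ x, g x ≠ c)
    have e1 : (univ.filter (fun l : W → ZMod m => ∀ v ∈ D, ex0 l v ≠ c))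
        = univ.filter (fun f : W → ZMod m => ∀ x : D, (f ∘ fun x : D => (⟨x.1, hD x.2⟩ : W)) x ≠ c) := by
      ext l
      simp only [mem_filter, mem_univ, true_and, Function.comp_apply, Subtype.forall]
      constructor
      · intro h v hv
        have := h v hv
        rwa [ex0, dif_pos (hD hv)] at this
      · intro h v hv
        rw [ex0, dif_pos (hD hv)]
        exact h v hv
    have e2 : (univ.filter (fun g : D → ZMod m => ∀ x, g x ≠ c)).card = (m - 1) ^ D.card := by
      have : (univ.filter (fun g : D → ZMod m => ∀ x, g x ≠ c))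
          = Fintype.piFinset (fun _ : D => (univ : Finset (ZMod m)).erase c) := by
        ext g; simp [Fintype.mem_piFinset]
      rw [this, Fintype.card_piFinset]
      simp [ZMod.card]
    rw [e1]
    rw [e2] at hr
    simpa [ZMod.card] using hr
  rw [h1, Finset.sum_mul]
  simp_rw [h2]
  rw [Finset.sum_const, card_univ, ZMod.card, smul_eq_mul, pow_succ]
  ring

open Classical in
/-- The recursion step. -/
theorem Sys.step {h e : ℕ} {δ : ℝ} (m : ℕ) (hm : 1 ≤ m) (h0 : 0 ≤ δ) (hA : Sys 1 0 h δ) :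
    Sys 1 0 (h + e + 1) (1 / m + (1 - 1 / m) ^ (e + 1) * δ) := by
  intro W
  have : NeZero m := ⟨by omega⟩
  choose 𝒜 a1 a2 a3 using fun y => hA (lo W y)
  set n := W.card with hn
  set k := h + e + 1 with hk
  -- the two families
  let P := (W → ZMod m) × ZMod m
  let G1 : P → Finset (Finset ℕ) := fun p => W.biUnion (fun y =>
    (((lo W y).powersetCard h) ×ˢ (((hi W y).powersetCard e).filter
      (fun C => ∑ v ∈ C, ex0 p.1 v = p.2))).image (fun t => join y t.1 t.2))
  let G2 : P → Finset (Finset ℕ) := fun p => W.biUnion (fun y =>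
    ((𝒜 y) ×ˢ (((hi W y).powersetCard e).filter
      (fun C => Noc (insert y C) p))).image (fun t => join y t.1 t.2))
  have mpos : (0 : ℝ) < m := by exact_mod_cast hm
  -- bounds for the sums
  have b1 : ∑ p : P, ((G1 p).card : ℝ) ≤ (m : ℝ) ^ n * (n.choose k : ℝ) := by
    have t1 : ∀ p : P, (G1 p).card ≤ ∑ y ∈ W, (lo W y).card.choose h *
        (((hi W y).powersetCard e).filter (fun C => ∑ v ∈ C, ex0 p.1 v = p.2)).card := by
      intro p
      refine Finset.card_biUnion_le.trans (Finset.sum_le_sum fun y _ => ?_)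
      refine Finset.card_image_le.trans ?_
      rw [Finset.card_product, Finset.card_powersetCard]
    have t2 : ∑ p : P, (G1 p).card ≤ m ^ n * n.choose k := by
      calc ∑ p : P, (G1 p).card ≤ ∑ p : P, ∑ y ∈ W, (lo W y).card.choose h *
            (((hi W y).powersetCard e).filter (fun C => ∑ v ∈ C, ex0 p.1 v = p.2)).card :=
            Finset.sum_le_sum fun p _ => t1 p
        _ = ∑ l : W → ZMod m, ∑ y ∈ W, (lo W y).card.choose h *
            ∑ s : ZMod m, (((hi W y).powersetCard e).filter (fun C => ∑ v ∈ C, ex0 l v = s)).card := by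
            rw [Fintype.sum_prod_type]
            refine Finset.sum_congr rfl fun l _ => ?_
            rw [Finset.sum_comm]
            refine Finset.sum_congr rfl fun y _ => ?_
            rw [Finset.mul_sum]
        _ = ∑ l : W → ZMod m, ∑ y ∈ W, (lo W y).card.choose h * (hi W y).card.choose e := by
            refine Finset.sum_congr rfl fun l _ => Finset.sum_congr rfl fun y _ => ?_
            congr 1
            rw [← Finset.card_powersetCard]
            rw [← Finset.card_eq_sum_card_fiberwise (f := fun C => ∑ v ∈ C, ex0 l v) (t := univ)]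
            intro C _; simp
        _ ≤ ∑ l : W → ZMod m, n.choose k := Finset.sum_le_sum fun l _ => tri_count W h e
        _ = m ^ n * n.choose k := by
            rw [Finset.sum_const, card_univ, smul_eq_mul]
            simp [ZMod.card, hn]
    exact_mod_cast t2
  have b2 : ∑ p : P, ((G2 p).card : ℝ) ≤ (m : ℝ) ^ (n + 1) * ((1 - 1 / m) ^ (e + 1) * δ) * (n.choose k : ℝ) := by
    have t1 : ∀ p : P, ((G2 p).card : ℝ) ≤ ∑ y ∈ W, ∑ C ∈ (hi W y).powersetCard e,
        (δ * ((lo W y).card.choose h : ℝ)) * (if Noc (insert y C) p then 1 else 0) := by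
      intro p
      have u1 : (G2 p).card ≤ ∑ y ∈ W, (𝒜 y).card *
        (((hi W y).powersetCard e).filter (fun C => Noc (insert y C) p)).card := by
        refine Finset.card_biUnion_le.trans (Finset.sum_le_sum fun y _ => ?_)
        refine Finset.card_image_le.trans ?_
        rw [Finset.card_product]
      have u2 : ((G2 p).card : ℝ) ≤ ∑ y ∈ W, ((𝒜 y).card : ℝ) *
        ((((hi W y).powersetCard e).filter (fun C => Noc (insert y C) p)).card : ℝ) := by
        exact_mod_cast u1
      refine u2.trans (Finset.sum_le_sum fun y _ => ?_)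
      rw [Finset.card_filter]
      push_cast
      rw [Finset.mul_sum]
      refine Finset.sum_le_sum fun C _ => ?_
      gcongr
      exact a3 y
    have t3 : ∀ y ∈ W, ∀ C ∈ (hi W y).powersetCard e,
        ∑ p : P, (if Noc (insert y C) p then (1 : ℝ) else 0) = (m : ℝ) ^ (n + 1) * (1 - 1 / m) ^ (e + 1) := by
      intro y hy C hC
      rw [mem_powersetCard] at hC
      have hyC : y ∉ C := fun hh => lt_irrefl _ (mem_hi.mp (hC.1 hh)).2
      have hsub : insert y C ⊆ W := by
        intro a ha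
        rw [mem_insert] at ha
        rcases ha with rfl | ha
        · exact hy
        · exact (mem_hi.mp (hC.1 ha)).1
      have hcard : (insert y C).card = e + 1 := by
        rw [Finset.card_insert_of_notMem hyC, hC.2]
      have hc := noc_count m (insert y C) hsub
      rw [hcard] at hc
      have e1 : ∑ p : P, (if Noc (insert y C) p then (1 : ℝ) else 0)
          = ((univ.filter (fun p : P => Noc (insert y C) p)).card : ℝ) := by
        rw [Finset.card_filter]; push_cast; rfl
      rw [e1]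
      have hc' : ((univ.filter (fun p : P => Noc (insert y C) p)).card : ℝ) * (m : ℝ) ^ (e + 1)
          = ((m : ℝ) - 1) ^ (e + 1) * (m : ℝ) ^ (n + 1) := by
        have := congrArg (Nat.cast : ℕ → ℝ) hc
        push_cast [Nat.cast_sub hm] at this
        exact this
      have hmp : (0 : ℝ) < (m : ℝ) ^ (e + 1) := by positivity
      have hq : (1 - 1 / (m : ℝ)) ^ (e + 1) * (m : ℝ) ^ (e + 1) = ((m : ℝ) - 1) ^ (e + 1) := by
        rw [← mul_pow]; congr 1; field_simp
      apply mul_right_cancel₀ hmp.ne'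
      rw [hc', mul_assoc, hq]; ring
    calc ∑ p : P, ((G2 p).card : ℝ)
        ≤ ∑ p : P, ∑ y ∈ W, ∑ C ∈ (hi W y).powersetCard e,
          (δ * ((lo W y).card.choose h : ℝ)) * (if Noc (insert y C) p then 1 else 0) :=
          Finset.sum_le_sum fun p _ => t1 p
      _ = ∑ y ∈ W, ∑ C ∈ (hi W y).powersetCard e, (δ * ((lo W y).card.choose h : ℝ)) *
          ∑ p : P, (if Noc (insert y C) p then (1 : ℝ) else 0) := by
          rw [Finset.sum_comm]
          refine Finset.sum_congr rfl fun y _ => ?_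
          rw [Finset.sum_comm]
          refine Finset.sum_congr rfl fun C _ => ?_
          rw [Finset.mul_sum]
      _ = ∑ y ∈ W, ∑ C ∈ (hi W y).powersetCard e, (δ * ((lo W y).card.choose h : ℝ)) *
          ((m : ℝ) ^ (n + 1) * (1 - 1 / m) ^ (e + 1)) := by
          refine Finset.sum_congr rfl fun y hy => Finset.sum_congr rfl fun C hC => ?_
          rw [t3 y hy C hC]
      _ = ((m : ℝ) ^ (n + 1) * ((1 - 1 / m) ^ (e + 1) * δ)) *
          ((∑ y ∈ W, (lo W y).card.choose h * (hi W y).card.choose e : ℕ) : ℝ) := by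
          push_cast
          rw [Finset.mul_sum]
          refine Finset.sum_congr rfl fun y _ => ?_
          rw [Finset.sum_const, Finset.card_powersetCard, nsmul_eq_mul]
          ring
      _ ≤ ((m : ℝ) ^ (n + 1) * ((1 - 1 / m) ^ (e + 1) * δ)) * (n.choose k : ℝ) := by
          have hnn : (0 : ℝ) ≤ (1 - 1 / (m : ℝ)) := by
            rw [sub_nonneg, div_le_one mpos]; exact_mod_cast hm
          gcongr
          exact_mod_cast tri_count W h e
  -- averaging
  have hne : (univ : Finset P).Nonempty := ⟨(fun _ => 0, 0), mem_univ _⟩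
  obtain ⟨p, -, hp⟩ := Finset.exists_le_of_sum_le (s := (univ : Finset P))
    (f := fun p => ((G1 p).card : ℝ) + ((G2 p).card : ℝ))
    (g := fun _ => (1 / (m : ℝ) + (1 - 1 / m) ^ (e + 1) * δ) * (n.choose k : ℝ)) hne (by
      rw [Finset.sum_add_distrib, Finset.sum_const, card_univ, nsmul_eq_mul]
      have hcP : (Fintype.card P : ℝ) = (m : ℝ) ^ (n + 1) := by
        have : Fintype.card P = m ^ n * m := by
          show Fintype.card ((W → ZMod m) × ZMod m) = _
          rw [Fintype.card_prod]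
          simp [ZMod.card, hn]
        rw [this]; push_cast; ring
      rw [hcP]
      calc _ ≤ (m : ℝ) ^ n * (n.choose k : ℝ) + (m : ℝ) ^ (n + 1) * ((1 - 1 / m) ^ (e + 1) * δ) * (n.choose k : ℝ) :=
            add_le_add b1 b2
        _ = _ := by
            rw [pow_succ]; field_simp)
  refine ⟨G1 p ∪ G2 p, ?_, ?_, ?_⟩
  · intro A hA'
    rcases mem_union.mp hA' with h' | h'
    · exact glue_mem (fun y _ B hB => mem_powersetCard.mp hB)
        (fun y _ C hC => mem_powersetCard.mp (mem_filter.mp hC).1) A h'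
    · exact glue_mem (fun y _ => a1 y)
        (fun y _ C hC => mem_powersetCard.mp (mem_filter.mp hC).1) A h'
  · intro X hX hXc S hS hSc
    have hS0 : S = ∅ := by simpa using hSc
    subst hS0
    obtain ⟨y, hy, hyc⟩ := exists_rank X (h + 1) (by omega)
    obtain ⟨z, hz, hzc⟩ := exists_rank X h (by omega)
    have hspy := card_split hy
    have hspz := card_split hz
    -- the top part
    have hD : hi X z = insert y (hi X y) := by
      have hzy : z < y := by
        by_contra hcon
        have : lo X y ⊆ lo X z := by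
          intro a ha; rw [mem_lo] at *; exact ⟨ha.1, by omega⟩
        have := Finset.card_le_card this
        omega
      symm
      apply Finset.eq_of_subset_of_card_le
      · intro a ha
        rw [mem_insert] at ha
        rw [mem_hi]
        rcases ha with rfl | ha
        · exact ⟨hy, hzy⟩
        · rw [mem_hi] at ha; exact ⟨ha.1, by omega⟩
      · rw [Finset.card_insert_of_notMem (by simp [mem_hi])]; omega
    by_cases hcase : Noc (insert y (hi X y)) p
    · obtain ⟨B, hB1, hB2, hB3⟩ := a2 y (lo X y) (lo_mono hX y) (by omega) ∅ (by simp) (by simp)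
      refine ⟨join y B (hi X y), mem_union_right _ ?_, by simp, ?_⟩
      · refine mem_glue (hX hy) hB1 ?_
        rw [mem_filter]
        exact ⟨mem_powersetCard.mpr ⟨hi_mono hX y, by omega⟩, hcase⟩
      · exact join_subset hy (hB3.trans (Finset.filter_subset _ _)) (Finset.filter_subset _ _)
    · rw [← hD] at hcase
      unfold Noc at hcase
      push Not at hcase
      obtain ⟨v, hv, hve⟩ := hcase
      refine ⟨join z (lo X z) ((hi X z).erase v), mem_union_left _ ?_, by simp, ?_⟩
      · refine mem_glue (hX hz) (mem_powersetCard.mpr ⟨lo_mono hX z, hzc⟩) ?_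
        rw [mem_filter]
        refine ⟨mem_powersetCard.mpr ⟨(Finset.erase_subset _ _).trans (hi_mono hX z), ?_⟩, ?_⟩
        · rw [Finset.card_erase_of_mem hv]; omega
        · have := Finset.sum_erase_add (hi X z) (fun v => ex0 p.1 v) hv
          rw [hve] at this
          linear_combination this
      · exact join_subset hz (Finset.filter_subset _ _)
          ((Finset.erase_subset _ _).trans (Finset.filter_subset _ _))
  · have : ((G1 p ∪ G2 p).card : ℝ) ≤ (G1 p).card + (G2 p).card := by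
      exact_mod_cast Finset.card_union_le _ _
    exact this.trans hp

/-! ### Iterating the constructions -/

theorem pow_quarter {m N : ℕ} (hm : 1 ≤ m) (hN : 2 * m ≤ N) : (1 - 1 / (m : ℝ)) ^ N ≤ 1 / 4 := by
  have mpos : (0 : ℝ) < m := by exact_mod_cast hm
  have hnn : (0 : ℝ) ≤ (1 - 1 / (m : ℝ)) := by
    rw [sub_nonneg, div_le_one mpos]; exact_mod_cast hm
  have h1 : (1 - 1 / (m : ℝ)) ≤ Real.exp (-(1 / (m : ℝ))) := by
    have := Real.add_one_le_exp (-(1 / (m : ℝ)))
    linarith
  have h2 : (1 - 1 / (m : ℝ)) ^ N ≤ Real.exp (-2) := by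
    calc (1 - 1 / (m : ℝ)) ^ N ≤ (Real.exp (-(1 / (m : ℝ)))) ^ N := pow_le_pow_left₀ hnn h1 N
      _ = Real.exp (N * (-(1 / (m : ℝ)))) := by rw [← Real.exp_nat_mul]
      _ ≤ Real.exp (-2) := by
          apply Real.exp_le_exp.mpr
          have : (2 : ℝ) * m ≤ N := by exact_mod_cast hN
          have h3 : (2 : ℝ) ≤ N * (1 / m) := by
            rw [mul_one_div, le_div_iff₀ mpos]; exact this
          linarith
  have h3 : Real.exp (-2) ≤ 1 / 4 := by
    have e1 : Real.exp (-2) = (Real.exp 1 ^ 2)⁻¹ := by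
      rw [Real.exp_neg, ← Real.exp_nat_mul]; norm_num
    rw [e1]
    have e2 : (2 : ℝ) ≤ Real.exp 1 := by have := Real.exp_one_gt_d9; linarith
    have e3 : (4 : ℝ) ≤ Real.exp 1 ^ 2 := by nlinarith
    rw [inv_eq_one_div]
    exact one_div_le_one_div_of_le (by norm_num) e3
  exact h2.trans h3

/-- Turán systems: on any set there is a family of `k`-sets of relative size at most `16/(k+1)`
that has a member inside every `(k+1)`-set. -/
theorem basic (k : ℕ) : Sys 1 0 k (16 / ((k : ℝ) + 1)) := by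
  induction k using Nat.strong_induction_on with
  | _ k ih =>
    rcases Nat.lt_or_ge k 16 with hk | hk
    · refine (Sys.triv 1 0 k (Nat.zero_le _)).mono ?_
      rw [le_div_iff₀ (by positivity)]
      have : (k : ℝ) < 16 := by exact_mod_cast hk
      have hk' : k + 1 ≤ 16 := hk
      have : (k : ℝ) + 1 ≤ 16 := by exact_mod_cast hk'
      linarith
    · obtain ⟨h, hh⟩ : ∃ h, h = k / 2 := ⟨_, rfl⟩
      obtain ⟨e, he⟩ : ∃ e, e = k - h - 1 := ⟨_, rfl⟩
      obtain ⟨m, hm⟩ : ∃ m, m = (e + 1) / 2 := ⟨_, rfl⟩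
      have hkk : k = h + e + 1 := by omega
      have hm1 : 1 ≤ m := by omega
      have hm2 : 2 * m ≤ e + 1 := by omega
      have hm4 : k ≤ 4 * m + 2 := by omega
      have h2h : k + 1 ≤ 2 * (h + 1) := by omega
      have s1 := Sys.step (h := h) (e := e) m hm1 (by positivity) (ih h (by omega))
      rw [← hkk] at s1
      refine s1.mono ?_
      have hq := pow_quarter hm1 hm2
      have mpos : (0 : ℝ) < m := by exact_mod_cast hm1
      have hkR : (16 : ℝ) ≤ k := by exact_mod_cast hk
      have hm4R : (k : ℝ) ≤ 4 * m + 2 := by exact_mod_cast hm4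
      have h2hR : (k : ℝ) + 1 ≤ 2 * ((h : ℝ) + 1) := by exact_mod_cast h2h
      have p1 : 1 / (m : ℝ) ≤ 8 / ((k : ℝ) + 1) := by
        rw [div_le_div_iff₀ mpos (by positivity)]; linarith
      have p2 : (16 : ℝ) / (h + 1) ≤ 32 / ((k : ℝ) + 1) := by
        rw [div_le_div_iff₀ (by positivity) (by positivity)]; linarith
      have p3 : (1 - 1 / (m : ℝ)) ^ (e + 1) * (16 / ((h : ℝ) + 1)) ≤ 1 / 4 * (32 / ((k : ℝ) + 1)) := by
        gcongr
      calc 1 / (m : ℝ) + (1 - 1 / (m : ℝ)) ^ (e + 1) * (16 / ((h : ℝ) + 1))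
          ≤ 8 / ((k : ℝ) + 1) + 1 / 4 * (32 / ((k : ℝ) + 1)) := add_le_add p1 p3
        _ = 16 / ((k : ℝ) + 1) := by ring

/-- systems protecting `i` elements -/
theorem multi (i : ℕ) : ∃ K : ℝ, 0 ≤ K ∧ ∀ k : ℕ, i ≤ k → Sys 1 i k (K / ((k : ℝ) + 1)) := by
  induction i with
  | zero => exact ⟨16, by norm_num, fun k _ => basic k⟩
  | succ i ih =>
    obtain ⟨K, hK, hS⟩ := ih
    refine ⟨32 + 3 * K + (2 * i + 5), by positivity, fun k hk => ?_⟩
    rcases Nat.lt_or_ge k (2 * i + 4) with hk2 | hk2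
    · refine (Sys.triv 1 (i + 1) k hk).mono ?_
      rw [le_div_iff₀ (by positivity)]
      have : (k : ℝ) + 1 ≤ 2 * i + 4 := by exact_mod_cast hk2
      linarith
    · obtain ⟨h, hh⟩ : ∃ h, h = k / 2 := ⟨_, rfl⟩
      obtain ⟨e, he⟩ : ∃ e, e = k - h - 1 := ⟨_, rfl⟩
      have hkk : k = h + e + 1 := by omega
      have h2h : k + 1 ≤ 2 * (h + 1) := by omega
      have h3e : k + 1 ≤ 3 * (e + 1) := by omega
      have s1 := Sys.sum (by positivity) (by positivity) (basic h) (hS e (by omega))
      rw [← hkk] at s1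
      refine s1.mono ?_
      have h2hR : (k : ℝ) + 1 ≤ 2 * ((h : ℝ) + 1) := by exact_mod_cast h2h
      have h3eR : (k : ℝ) + 1 ≤ 3 * ((e : ℝ) + 1) := by exact_mod_cast h3e
      have p2 : (16 : ℝ) / (h + 1) ≤ 32 / ((k : ℝ) + 1) := by
        rw [div_le_div_iff₀ (by positivity) (by positivity)]; linarith
      have p3 : K / ((e : ℝ) + 1) ≤ 3 * K / ((k : ℝ) + 1) := by
        rw [div_le_div_iff₀ (by positivity) (by positivity)]
        calc K * ((k : ℝ) + 1) ≤ K * (3 * ((e : ℝ) + 1)) := by gcongr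
          _ = 3 * K * ((e : ℝ) + 1) := by ring
      have p4 : (0 : ℝ) ≤ (2 * i + 5) / ((k : ℝ) + 1) := by positivity
      calc (16 : ℝ) / (h + 1) + K / ((e : ℝ) + 1)
          ≤ 32 / ((k : ℝ) + 1) + 3 * K / ((k : ℝ) + 1) + (2 * i + 5) / ((k : ℝ) + 1) := by linarith
        _ = (32 + 3 * K + (2 * i + 5)) / ((k : ℝ) + 1) := by ring

/-- systems of density `O(k^{-q})` in which `q` points can be removed while `i` are protected -/
theorem full (i q : ℕ) : ∃ K : ℝ, 0 ≤ K ∧ ∀ k : ℕ, i ≤ k → Sys (q + 1) i k (K / ((k : ℝ) + 1) ^ (q + 1)) := by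
  obtain ⟨K₁, hK₁, hS₁⟩ := multi i
  induction q with
  | zero => exact ⟨K₁, hK₁, fun k hk => by simpa using hS₁ k hk⟩
  | succ q ih =>
    obtain ⟨K, hK, hS⟩ := ih
    refine ⟨(2 ^ (q + 1) * K) * (3 * K₁) + (2 * i + 4) ^ (q + 1 + 1), by positivity, fun k hk => ?_⟩
    rcases Nat.lt_or_ge k (2 * i + 4) with hk2 | hk2
    · refine (Sys.triv (q + 1 + 1) i k hk).mono ?_
      rw [le_div_iff₀ (by positivity), one_mul]
      have h1 : (k : ℝ) + 1 ≤ 2 * i + 4 := by exact_mod_cast hk2
      have h2 : ((k : ℝ) + 1) ^ (q + 1 + 1) ≤ (2 * i + 4) ^ (q + 1 + 1) :=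
        pow_le_pow_left₀ (by positivity) h1 _
      have h3 : 0 ≤ (2 ^ (q + 1) * K) * (3 * K₁) := by positivity
      linarith
    · obtain ⟨h, hh⟩ : ∃ h, h = k / 2 := ⟨_, rfl⟩
      obtain ⟨e, he⟩ : ∃ e, e = k - h - 1 := ⟨_, rfl⟩
      have hkk : k = h + e + 1 := by omega
      have h2h : k + 1 ≤ 2 * (h + 1) := by omega
      have h3e : k + 1 ≤ 3 * (e + 1) := by omega
      have s1 := Sys.prod (by positivity) (by positivity) (hS h (by omega)) (hS₁ e (by omega))
      rw [← hkk] at s1
      refine s1.mono ?_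
      have h2hR : (k : ℝ) + 1 ≤ 2 * ((h : ℝ) + 1) := by exact_mod_cast h2h
      have h3eR : (k : ℝ) + 1 ≤ 3 * ((e : ℝ) + 1) := by exact_mod_cast h3e
      have p2 : K / ((h : ℝ) + 1) ^ (q + 1) ≤ 2 ^ (q + 1) * K / ((k : ℝ) + 1) ^ (q + 1) := by
        rw [div_le_div_iff₀ (by positivity) (by positivity)]
        calc K * ((k : ℝ) + 1) ^ (q + 1) ≤ K * (2 * ((h : ℝ) + 1)) ^ (q + 1) := by gcongr
          _ = 2 ^ (q + 1) * K * ((h : ℝ) + 1) ^ (q + 1) := by rw [mul_pow]; ring
      have p3 : K₁ / ((e : ℝ) + 1) ≤ 3 * K₁ / ((k : ℝ) + 1) := by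
        rw [div_le_div_iff₀ (by positivity) (by positivity)]
        calc K₁ * ((k : ℝ) + 1) ≤ K₁ * (3 * ((e : ℝ) + 1)) := by gcongr
          _ = 3 * K₁ * ((e : ℝ) + 1) := by ring
      have p4 : (0 : ℝ) ≤ (2 * i + 4) ^ (q + 1 + 1) / ((k : ℝ) + 1) ^ (q + 1 + 1) := by positivity
      calc K / ((h : ℝ) + 1) ^ (q + 1) * (K₁ / ((e : ℝ) + 1))
          ≤ 2 ^ (q + 1) * K / ((k : ℝ) + 1) ^ (q + 1) * (3 * K₁ / ((k : ℝ) + 1)) := by gcongr
        _ = (2 ^ (q + 1) * K) * (3 * K₁) / ((k : ℝ) + 1) ^ (q + 1 + 1) := by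
            rw [pow_succ _ (q + 1)]; field_simp
        _ ≤ (2 ^ (q + 1) * K) * (3 * K₁) / ((k : ℝ) + 1) ^ (q + 1 + 1)
            + (2 * i + 4) ^ (q + 1 + 1) / ((k : ℝ) + 1) ^ (q + 1 + 1) := by linarith
        _ = _ := by ring

/-- upper bound for `1 - π(F_i)` from a system -/
theorem density_of_sys {k i : ℕ} {δ : ℝ} (hk : 1 ≤ k) (hi : 1 ≤ i) (hs : Sys (i - 1) i k δ) :
    1 - turanDensity k i ≤ δ := by
  have : 1 - δ ≤ turanDensity k i := by
    apply le_density
    intro n
    obtain ⟨𝒢, g1, g2, g3⟩ := hs (Finset.range n)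
    set G : Finset (Finset (Fin n)) := univ.filter (fun A => A.map Fin.valEmbedding ∈ 𝒢) with hG
    have hGc : G.card ≤ 𝒢.card := by
      refine Finset.card_le_card_of_injOn (fun A => A.map Fin.valEmbedding) ?_ ?_
      · intro A hA
        rw [mem_coe, hG, mem_filter] at hA
        exact hA.2
      · intro A _ B _ hAB
        exact Finset.map_injective _ hAB
    have hcov := ex_ge_of_cover (k := k) (i := i) G (by
      intro S T hS hT hST
      have hsubR : ∀ B : Finset (Fin n), B.map Fin.valEmbedding ⊆ Finset.range n := by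
        intro B x hx
        rw [mem_map] at hx
        obtain ⟨y, -, rfl⟩ := hx
        rw [mem_range]; exact y.2
      obtain ⟨A, hA1, hA2, hA3⟩ := g2 ((S ∪ T).map Fin.valEmbedding) (hsubR _)
        (by rw [Finset.card_map, Finset.card_union_of_disjoint hST]; omega)
        (S.map Fin.valEmbedding) (Finset.map_subset_map.mpr subset_union_left)
        (by rw [Finset.card_map, hS])
      have hAm : (univ.filter (fun x : Fin n => x.val ∈ A)).map Fin.valEmbedding = A := by
        ext a
        simp only [mem_map, mem_filter, mem_univ, true_and, Fin.valEmbedding_apply]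
        constructor
        · rintro ⟨x, hx, rfl⟩; exact hx
        · intro ha
          have := hA3 ha
          rw [mem_map] at this
          obtain ⟨x, -, hx⟩ := this
          exact ⟨x, by rw [← hx] at ha; exact ha, hx⟩
      refine ⟨univ.filter (fun x : Fin n => x.val ∈ A), ?_, ?_, ?_, ?_⟩
      · rw [hG, mem_filter]; exact ⟨mem_univ _, by rw [hAm]; exact hA1⟩
      · rw [← Finset.card_map Fin.valEmbedding, hAm]; exact (g1 A hA1).2
      · rw [← Finset.map_subset_map (f := Fin.valEmbedding), hAm]; exact hA3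
      · left
        rw [← Finset.map_subset_map (f := Fin.valEmbedding), hAm]; exact hA2)
    rw [Finset.card_range] at g3
    have h1 : (n.choose k : ℝ) ≤ ex n k i + G.card := by exact_mod_cast hcov
    have h2 : (G.card : ℝ) ≤ 𝒢.card := by exact_mod_cast hGc
    linarith
  linarith

/-- The order of magnitude for fixed `i`. -/
theorem fixed_i : ∀ i : ℕ, 2 ≤ i → ∃ c C : ℝ, 0 < c ∧ 0 < C ∧ ∀ k : ℕ, i ≤ k →
    Filter.Tendsto (fun n : ℕ => (ex n k i : ℝ) / (n.choose k : ℝ)) Filter.atTop
      (nhds (turanDensity k i)) ∧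
    c / (k : ℝ) ^ (i - 1) ≤ 1 - turanDensity k i ∧
    1 - turanDensity k i ≤ C / (k : ℝ) ^ (i - 1) := by
  intro i hi
  obtain ⟨K, hK, hS⟩ := full i (i - 2)
  refine ⟨1 / (2 * i), K + 1, by positivity, by positivity, fun k hk => ⟨ratio_tendsto k i, ?_, ?_⟩⟩
  · refine le_trans ?_ (density_upper (by omega) (by omega))
    have hkR : (0 : ℝ) < k := by
      have : 0 < k := by omega
      exact_mod_cast this
    have hk1 : (1 : ℝ) ≤ k := by
      have : 1 ≤ k := by omega
      exact_mod_cast this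
    have hiR : (0 : ℝ) < i := by
      have : 0 < i := by omega
      exact_mod_cast this
    have h1 : (k.choose i : ℝ) ≤ (k : ℝ) ^ i := by exact_mod_cast Nat.choose_le_pow k i
    have h2 : (k : ℝ) ≤ (k : ℝ) ^ i := by
      calc (k : ℝ) = (k : ℝ) ^ 1 := (pow_one _).symm
        _ ≤ (k : ℝ) ^ i := pow_le_pow_right₀ hk1 (by omega)
    have h3 : (k : ℝ) ^ i = k * (k : ℝ) ^ (i - 1) := by
      rw [← pow_succ']; congr 1; omega
    rw [div_div, div_le_div_iff₀ (by positivity) (by positivity), one_mul]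
    calc (i : ℝ) * ((k.choose i : ℝ) + k) ≤ i * ((k : ℝ) ^ i + (k : ℝ) ^ i) := by gcongr
      _ = k * (2 * i * (k : ℝ) ^ (i - 1)) := by rw [h3]; ring
  · have h1 := density_of_sys (k := k) (i := i) (by omega) (by omega)
      (by simpa [show i - 2 + 1 = i - 1 by omega] using hS k hk)
    refine h1.trans ?_
    have hkR : (0 : ℝ) < k := by
      have : 0 < k := by omega
      exact_mod_cast this
    calc K / ((k : ℝ) + 1) ^ (i - 1) ≤ K / (k : ℝ) ^ (i - 1) := by
          gcongr; linarith
      _ ≤ (K + 1) / (k : ℝ) ^ (i - 1) := by gcongr; linarith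

/-- For every fixed `i ≥ 2` there are constants `0 < c`, `0 < C` with
`c / k^(i-1) ≤ 1 - π(F_i) ≤ C / k^(i-1)` for all `k ≥ i`; the limit defining `π(F_i)` exists. -/
theorem result : ∀ i : ℕ, 2 ≤ i → ∃ c C : ℝ, 0 < c ∧ 0 < C ∧ ∀ k : ℕ, i ≤ k →
    Filter.Tendsto (fun n : ℕ => (ex n k i : ℝ) / (n.choose k : ℝ)) Filter.atTop
      (nhds (turanDensity k i)) ∧
    c / (k : ℝ) ^ (i - 1) ≤ 1 - turanDensity k i ∧
    1 - turanDensity k i ≤ C / (k : ℝ) ^ (i - 1) :=
  fixed_i

end Pool.Agent.Results.MP_7badbe_co.FixedI
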